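import Pool.Agent.N414.LR.Stm

/-!
# Project LR: assembly
-/

set_option autoImplicit false

namespace Pool.Agent.N414.LR.Asm

open Pool.Agent.H494R3.GT Pool.Agent.N557.QW Pool.Agent.N414.LR
open Pool.Agent.W661.RC (HasT)

noncomputable section

lemma norm_unit {H : Type} [NormedAddCommGroup H] [InnerProductSpace ℂ H] [CompleteSpace H]
    (u : unitary (H →L[ℂ] H)) (x : H) : ‖(u : H →L[ℂ] H) x‖ = ‖x‖ := by
  have h := (Unitary.mem_iff.1 u.2).1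
  have h2 : inner ℂ ((u : H →L[ℂ] H) x) ((u : H →L[ℂ] H) x) = inner ℂ x x := by
    rw [← ContinuousLinearMap.adjoint_inner_right, ← ContinuousLinearMap.star_eq_adjoint]
    change inner ℂ x ((star (u : H →L[ℂ] H) * (u : H →L[ℂ] H)) x) = _
    rw [h]; rfl
  have h3 : ‖(u : H →L[ℂ] H) x‖ ^ 2 = ‖x‖ ^ 2 := by
    have := congrArg Complex.re h2
    rwa [← inner_self_eq_norm_sq (𝕜 := ℂ), ← inner_self_eq_norm_sq (𝕜 := ℂ)]
  exact (sq_eq_sq₀ (norm_nonneg _) (norm_nonneg _)).1 h3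

lemma norm_dl {P : Type} (p : P) : ‖(dl p : L2 P)‖ = 1 := by
  classical
  have h := dl_inner p p
  rw [if_pos rfl] at h
  have : ‖(dl p : L2 P)‖ ^ 2 = 1 := by
    rw [← inner_self_eq_norm_sq (𝕜 := ℂ), h]; simp
  nlinarith [norm_nonneg (dl p : L2 P), sq_nonneg (‖(dl p : L2 P)‖ - 1)]

/-- the displacement of a unit vector and its coefficient -/
lemma disp {H : Type} [NormedAddCommGroup H] [InnerProductSpace ℂ H] [CompleteSpace H]
    (u : unitary (H →L[ℂ] H)) (x : H) (hx : ‖x‖ = 1) :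
    ‖(u : H →L[ℂ] H) x - x‖ ^ 2 = 2 - 2 * (inner ℂ x ((u : H →L[ℂ] H) x)).re := by
  rw [norm_sub_sq (𝕜 := ℂ), norm_unit, hx]
  have : RCLike.re (inner ℂ ((u : H →L[ℂ] H) x) x) = (inner ℂ x ((u : H →L[ℂ] H) x)).re :=
    inner_re_symm (𝕜 := ℂ) _ _
  rw [this]; ring

lemma coef_of_disp {H : Type} [NormedAddCommGroup H] [InnerProductSpace ℂ H] [CompleteSpace H]
    (u : unitary (H →L[ℂ] H)) (x : H) (hx : ‖x‖ = 1) (ε : ℝ)
    (h : ‖(u : H →L[ℂ] H) x - x‖ ≤ ε) : 1 - ε ≤ (inner ℂ x ((u : H →L[ℂ] H) x)).re := by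
  have h1 : (inner ℂ x ((u : H →L[ℂ] H) x)) = 1 + inner ℂ x ((u : H →L[ℂ] H) x - x) := by
    rw [inner_sub_right, inner_self_eq_norm_sq_to_K, hx]; simp
  have h2 : ‖inner ℂ x ((u : H →L[ℂ] H) x - x)‖ ≤ ε := by
    refine (norm_inner_le_norm _ _).trans ?_
    rw [hx, one_mul]; exact h
  rw [h1, Complex.add_re, Complex.one_re]
  have := (abs_le.1 ((Complex.abs_re_le_norm _).trans h2)).1
  linarith

/-- property (T) makes the largest Fourier coefficients uniformly large -/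
theorem height (hKZ : S_KZ) (hRE0 : S_RE0) (hRE1 : S_RE1) (hNUM : S_NUM) (hSQ : S_SQ)
    (Γ : Type) [Group Γ] (hT : HasT Γ) (η : ℝ) (hη : 0 < η) (hη1 : η < 1) :
    ∃ (S : Finset Γ) (δ : ℝ), 0 < δ ∧ ∀ (Λ : Type) [Group Λ] (v : Γ →* unitary (Op Λ)),
      (∀ g, (v g : Op Λ) ∈ LG Λ) → (∀ s ∈ S, ∃ h, 1 - δ ≤ ‖cf (v s : Op Λ) h‖) →
      ∀ g, ∃ h, 1 - η ≤ ‖cf (v g : Op Λ) h‖ := by
  obtain ⟨S, hS⟩ := hKZ Γ hT
  obtain ⟨κ, hκ, hmain⟩ := hS η hη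
  refine ⟨S, min 1 (κ ^ 2 / 40), by positivity, fun Λ _ v hv hs g => ?_⟩
  obtain ⟨ρ, hρ⟩ := hRE0 Γ Λ v hv
  obtain ⟨σ, hσ, -⟩ := hRE1 Γ (Λ × Λ) ρ (1, 1)
  have hun : ∀ g, HasSum (fun h => ‖cf (v g : Op Λ) h‖ ^ 2) 1 := fun g =>
    hSQ Λ _ (hv g) (v g).2
  have h1 := hmain (L2 ((Λ × Λ) × (Λ × Λ))) σ (dl ((1, 1), (1, 1))) (norm_dl _) ?_ g
  · have h2 := coef_of_disp (σ g) _ (norm_dl _) η h1
    rw [hσ, Complex.ofReal_re, hρ] at h2
    exact (hNUM Λ _ (hun g)).2 η hη.le hη1 h2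
  · intro s hs'
    obtain ⟨h₀, hh₀⟩ := hs s hs'
    have h3 := (hNUM Λ _ (hun s)).1 h₀ (min 1 (κ ^ 2 / 40)) (by positivity) (min_le_left _ _) hh₀
    have h4 := disp (σ s) _ (norm_dl ((1, 1), (1, 1)))
    rw [hσ, Complex.ofReal_re, hρ] at h4
    have h5 : min 1 (κ ^ 2 / 40) ≤ κ ^ 2 / 40 := min_le_right _ _
    have h6 : ‖(σ s : Op ((Λ × Λ) × (Λ × Λ))) (dl ((1, 1), (1, 1))) - dl ((1, 1), (1, 1))‖ ^ 2
        ≤ κ ^ 2 := by
      rw [h4]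
      linarith
    exact (sq_le_sq₀ (norm_nonneg _) hκ.le).1 h6

/-- a representation which moves a basis vector uniformly little up to phases has an
eigenvector -/
theorem eig (hCIR : S_CIR) (hRE1 : S_RE1) (hHS : S_HS) (hFIX : S_FIX)
    (G P : Type) [Group G] (π : G →* unitary (Op P)) (p₀ : P)
    (h : ∀ g, 1 - 1 / 160000 ≤ ‖inner ℂ (dl p₀) ((π g : Op P) (dl p₀))‖) :
    ∃ (χ : G →* unitary ℂ) (ζ : L2 P), ‖ζ‖ = 1 ∧
      ∀ g, (π g : Op P) ζ = ((χ g : unitary ℂ) : ℂ) • ζ := by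
  obtain ⟨σ, hσ, hσ2⟩ := hRE1 G P π p₀
  have h1 : ∀ g, ‖(σ g : Op (P × P)) (dl (p₀, p₀)) - dl (p₀, p₀)‖ ≤ 1 / 200 := by
    intro g
    have h4 := disp (σ g) _ (norm_dl (p₀, p₀))
    rw [hσ, Complex.ofReal_re] at h4
    have h5 := h g
    have h6 : ‖(σ g : Op (P × P)) (dl (p₀, p₀)) - dl (p₀, p₀)‖ ^ 2 ≤ (1 / 200) ^ 2 := by
      rw [h4]
      nlinarith [h5, norm_nonneg (inner ℂ (dl p₀) ((π g : Op P) (dl p₀)))]
    exact (sq_le_sq₀ (norm_nonneg _) (by norm_num)).1 h6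
  obtain ⟨k, hk, hkinv⟩ := hCIR G _ σ (dl (p₀, p₀)) (1 / 200) h1
  obtain ⟨K, -, hK⟩ := hHS P k
  obtain ⟨K', hK'n, hK'⟩ := hHS P (k - dl (p₀, p₀))
  have hcomm : ∀ g, (π g : Op P) * K = K * (π g : Op P) := fun g => hσ2 k K hK g (hkinv g)
  have hdiff : ∀ x : L2 P, K x - inner ℂ (dl p₀) x • dl p₀ = K' x := by
    intro x
    have h2 : K' = K - (innerSL ℂ (dl p₀)).smulRight (dl p₀) := by
      apply op_ext_inner
      intro p q
      rw [hK', sub_apply, inner_sub_right, hK,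
        ContinuousLinearMap.smulRight_apply, innerSL_apply_apply, inner_smul_right]
      have : ((k - dl (p₀, p₀) : L2 (P × P)) : P × P → ℂ) (p, q) =
          k (p, q) - (dl (p₀, p₀) : L2 (P × P)) (p, q) := rfl
      rw [this]
      congr 1
      classical
      rw [dl_inner, dl_inner]
      by_cases hp : p = p₀ <;> by_cases hq : q = p₀
      · subst hp; subst hq; simp [dl_apply_self]
      · rw [dl_apply_ne (by simp [hq])]
        rw [if_neg (fun h => hq h.symm)]; simp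
      · rw [dl_apply_ne (by simp [hp])]
        rw [if_neg hp]; simp
      · rw [dl_apply_ne (by simp [hp])]
        rw [if_neg hp]; simp
    rw [h2]; rfl
  refine hFIX G (L2 P) π (dl p₀) K (1 / 200) (norm_dl _) (by norm_num) (by norm_num) ?_ hcomm ?_
  · intro x
    rw [hdiff]
    exact (K'.le_opNorm x).trans (mul_le_mul_of_nonneg_right (hK'n.trans hk) (norm_nonneg _))
  · intro g
    exact le_trans (by norm_num) (h g)

theorem main (hKZ : S_KZ) (hCIR : S_CIR) (hRE0 : S_RE0) (hRE1 : S_RE1) (hNUM : S_NUM)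
    (hSQ : S_SQ) (hHOM : S_HOM) (hPI : S_PI) (hHS : S_HS) (hFIX : S_FIX) (hCLS : S_CLS)
    (hUNI : S_UNI) (hWWW : S_WWW) (hEND : S_END) (hDEN : S_DEN) : S_MAIN := by
  intro Γ _ hicc hT
  obtain ⟨S, δ, hδ, hh⟩ := height hKZ hRE0 hRE1 hNUM hSQ Γ hT (1 / 160000) (by norm_num)
    (by norm_num)
  refine ⟨S, δ, hδ, fun Λ _ θ hθ hs => ?_⟩
  obtain ⟨v, hvθ, hv, hv1, hvd⟩ := hDEN Γ Λ θ hθ
  have h1 := hh Λ v hv (fun s hs' => by rw [hvθ]; exact hs s hs')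
  obtain ⟨f, hf⟩ := hHOM Γ Λ v (1 / 160000) hv (by norm_num) (by norm_num) h1
  obtain ⟨π, hπ⟩ := hPI Γ Λ v f hv
  obtain ⟨χ, ζ, hζ, hχ⟩ := eig hCIR hRE1 hHS hFIX Γ Λ π 1 (fun g => by rw [(hπ g).2]; exact hf g)
  have hvz : ∀ g, (v g : Op Λ) ζ = ((χ g : unitary ℂ) : ℂ) • rgt (f g) ζ := by
    intro g
    have h2 : (v g : Op Λ) * rgt (f g)⁻¹ * rgt (f g) = (v g : Op Λ) := by
      rw [mul_assoc]
      have : (rgt (f g)⁻¹ : Op Λ) * rgt (f g) = 1 := op_ext fun s => by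
        rw [mul_ap, rgt_dl, rgt_dl, mul_inv_cancel_right]; rfl
      rw [this, mul_one]
    have h3 : (v g : Op Λ) * rgt (f g)⁻¹ = rgt (f g)⁻¹ * (v g : Op Λ) := (mem_LG.1 (hv g) _).symm
    have h4 : (rgt (f g) : Op Λ) * ((v g : Op Λ) * rgt (f g)⁻¹) = (v g : Op Λ) := by
      rw [h3, ← mul_assoc]
      have : (rgt (f g) : Op Λ) * rgt (f g)⁻¹ = 1 := op_ext fun s => by
        rw [mul_ap, rgt_dl, rgt_dl, inv_mul_cancel_right]; rfl
      rw [this, one_mul]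
    have h5 := hχ g
    rw [(hπ g).1] at h5
    calc (v g : Op Λ) ζ = ((rgt (f g) : Op Λ) * ((v g : Op Λ) * rgt (f g)⁻¹)) ζ := by rw [h4]
      _ = rgt (f g) (((v g : Op Λ) * rgt (f g)⁻¹) ζ) := rfl
      _ = rgt (f g) (((χ g : unitary ℂ) : ℂ) • ζ) := by rw [h5]
      _ = _ := by rw [map_smul]
  have h0 := hCLS Γ Λ v f χ ζ hicc hv hv1 hvz
  have h2 := hUNI Γ Λ v ζ hζ hv hv1 hvd h0
  obtain ⟨w, hw, hwu, hwz⟩ := hWWW Λ ζ hζ h2
  obtain ⟨hbij, hfin⟩ := hEND Γ Λ v f χ w hv hv1 hvd hw hwu (by rw [hwz]; exact hvz)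
  refine ⟨MulEquiv.ofBijective f hbij, χ, w, hw, hwu, fun g => ?_⟩
  rw [← hvθ]
  exact hfin g

end

end Pool.Agent.N414.LR.Asm
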