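import Pool.Agent.N414.LR.Stm

/-!
# Project LR (helper414), BAR: the complex conjugate of an operator (helper747)
-/

set_option autoImplicit false

namespace Pool.Agent.N414.LR.BAR

open Pool.Agent.H494R3.GT Pool.Agent.N557.QW Pool.Agent.N414.LR

noncomputable section

variable {P : Type}

/-- the complex conjugate of an operator -/
def bar (x : Op P) : Op P :=
  LinearMap.mkContinuous
    { toFun := fun v => star (x (star v))
      map_add' := fun v w => by rw [star_add, map_add, star_add]
      map_smul' := fun c v => by
        rw [star_smul, map_smul, star_smul, star_star, RingHom.id_apply] } ‖x‖ (fun v => by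
      change ‖star (x (star v))‖ ≤ ‖x‖ * ‖v‖
      rw [norm_star, ← norm_star v]
      exact x.le_opNorm _)

lemma bar_apply (x : Op P) (v : L2 P) : bar x v = star (x (star v)) := rfl

lemma star_dl (p : P) : star (dl p : L2 P) = dl p := by
  classical
  apply vec_ext
  intro q
  rw [lp.star_apply]
  by_cases h : q = p
  · subst h
    rw [dl_apply_self, star_one]
  · rw [dl_apply_ne h, star_zero]

lemma bar_coeff (x : Op P) (p q : P) :
    inner ℂ (dl q) (bar x (dl p)) = (starRingEnd ℂ) (inner ℂ (dl q) (x (dl p))) := by
  rw [inner_dl, inner_dl, bar_apply, star_dl, lp.star_apply]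
  rfl

theorem main : Pool.Agent.N414.LR.S_BAR := by
  intro P
  refine ⟨bar, ?_, ?_, ?_, bar_coeff⟩
  · ext1 v
    rw [bar_apply]
    change star (star v) = v
    exact star_star v
  · intro x y
    ext1 v
    rw [bar_apply, mul_ap, mul_ap, bar_apply, bar_apply, star_star]
  · intro x
    apply op_ext_inner
    intro a b
    rw [bar_coeff, ContinuousLinearMap.star_eq_adjoint, ContinuousLinearMap.star_eq_adjoint,
      ContinuousLinearMap.adjoint_inner_right, ContinuousLinearMap.adjoint_inner_right]
    have h1 : inner ℂ (bar x (dl a)) (dl b) =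
        (starRingEnd ℂ) (inner ℂ (dl b) (bar x (dl a))) := (inner_conj_symm _ _).symm
    have h2 : inner ℂ (x (dl a)) (dl b) =
        (starRingEnd ℂ) (inner ℂ (dl b) (x (dl a))) := (inner_conj_symm _ _).symm
    rw [h1, h2, bar_coeff]

end

end Pool.Agent.N414.LR.BAR
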