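import Pool.Agent.N414.LR.Stm

/-!
# Project LR, part CIR: an invariant vector from a uniformly almost invariant one (helper614)
-/

set_option autoImplicit false

namespace Pool.Agent.N414.LR.CIR

/-- A uniformly almost invariant vector is close to an invariant vector. -/
theorem cir (G : Type) [Group G] (H : Type) [NormedAddCommGroup H] [InnerProductSpace ℂ H]
    [CompleteSpace H] (π : G →* unitary (H →L[ℂ] H)) (ξ : H) (ε : ℝ)
    (hε : ∀ g, ‖(π g : H →L[ℂ] H) ξ - ξ‖ ≤ ε) :
    ∃ ζ : H, ‖ζ - ξ‖ ≤ ε ∧ ∀ g, (π g : H →L[ℂ] H) ζ = ζ := by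
  let _ : InnerProductSpace ℝ H := InnerProductSpace.complexToReal
  set K : Set H := closure (convexHull ℝ (Set.range fun g => (π g : H →L[ℂ] H) ξ)) with hK
  have hcv : Convex ℝ K := (convex_convexHull ℝ _).closure
  have hcl : IsClosed K := isClosed_closure
  have hne : K.Nonempty :=
    ⟨(π 1 : H →L[ℂ] H) ξ, subset_closure (subset_convexHull ℝ _ ⟨1, rfl⟩)⟩
  have hball : K ⊆ Metric.closedBall ξ ε := by
    refine closure_minimal (convexHull_min ?_ (convex_closedBall ξ ε)) Metric.isClosed_closedBall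
    rintro _ ⟨g, rfl⟩
    rw [Metric.mem_closedBall, dist_eq_norm]
    exact hε g
  have hst : ∀ k, ∀ x ∈ K, (π k : H →L[ℂ] H) x ∈ K := by
    intro k
    have h1 : K ⊆ {x | (π k : H →L[ℂ] H) x ∈ K} := by
      refine closure_minimal (convexHull_min ?_ ?_) ?_
      · rintro _ ⟨g, rfl⟩
        refine subset_closure (subset_convexHull ℝ _ ⟨k * g, ?_⟩)
        show (π (k * g) : H →L[ℂ] H) ξ = _
        rw [map_mul]
        rfl
      · exact hcv.linear_preimage (((π k : H →L[ℂ] H) : H →ₗ[ℂ] H).restrictScalars ℝ)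
      · exact hcl.preimage (π k : H →L[ℂ] H).continuous
    exact fun x hx => h1 hx
  obtain ⟨v, hv, hmin⟩ := exists_norm_eq_iInf_of_complete_convex hne hcl.isComplete hcv 0
  refine ⟨v, ?_, fun g => ?_⟩
  · have := hball hv
    rwa [Metric.mem_closedBall, dist_eq_norm] at this
  · set v' := (π g : H →L[ℂ] H) v with hv'
    have hv'K : v' ∈ K := hst g v hv
    have hn : ‖v'‖ = ‖v‖ := ContinuousLinearMap.norm_map_of_mem_unitary (π g).2 v
    have hmin' : ‖(0 : H) - v'‖ = ⨅ w : K, ‖(0 : H) - w‖ := by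
      rw [← hmin, zero_sub, zero_sub, norm_neg, norm_neg, hn]
    have h1 := (norm_eq_iInf_iff_real_inner_le_zero hcv hv).1 hmin v' hv'K
    have h2 := (norm_eq_iInf_iff_real_inner_le_zero hcv hv'K).1 hmin' v hv
    have h3 : inner ℝ (v' - v) (v' - v) ≤ 0 := by
      have e1 : inner ℝ (0 - v') (v - v') = inner ℝ v' (v' - v) := by
        rw [zero_sub, inner_neg_left, ← inner_neg_right, neg_sub]
      rw [e1] at h2
      have e2 : inner ℝ (0 - v) (v' - v) = -inner ℝ v (v' - v) := by
        rw [zero_sub, inner_neg_left]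
      rw [e2] at h1
      rw [inner_sub_left]
      linarith
    rw [real_inner_self_eq_norm_sq] at h3
    have h4 : v' - v = 0 := norm_eq_zero.1 (pow_eq_zero_iff (two_ne_zero)|>.1 (le_antisymm h3 (sq_nonneg _)))
    exact sub_eq_zero.1 h4

/-- **S_CIR.** -/
theorem main : Pool.Agent.N414.LR.S_CIR := by
  intro G _ H _ _ _ π ξ ε h
  exact cir G H π ξ ε h

end Pool.Agent.N414.LR.CIR
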