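import Pool.Agent.N414.LR.Stm

/-!
# Project LR, part CLS (helper277)
-/

set_option autoImplicit false

namespace Pool.Agent.N414.LR.CLS

open Pool.Agent.H494R3.GT Pool.Agent.N557.QW Pool.Agent.N169.QWP Pool.Agent.N414.LR
open Filter Topology

noncomputable section

variable {G Λ : Type} [Group G] [Group Λ]

theorem star_v (v : G →* unitary (Op Λ)) (g : G) : star (v g : Op Λ) = (v g⁻¹ : Op Λ) := by
  rw [map_inv]
  rfl

theorem v_mul (v : G →* unitary (Op Λ)) (g h : G) (y : L2 Λ) :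
    (v (g * h) : Op Λ) y = (v g : Op Λ) ((v h : Op Λ) y) := by
  rw [map_mul]
  rfl

theorem v_one (v : G →* unitary (Op Λ)) (y : L2 Λ) : (v 1 : Op Λ) y = y := by
  rw [map_one]
  rfl

theorem inner_v (v : G →* unitary (Op Λ)) (k : G) (x y : L2 Λ) :
    inner ℂ x ((v k : Op Λ) y) = inner ℂ ((v k⁻¹ : Op Λ) x) y := by
  rw [← star_v, ContinuousLinearMap.star_eq_adjoint, ContinuousLinearMap.adjoint_inner_left]

theorem norm_v (v : G →* unitary (Op Λ)) (g : G) (y : L2 Λ) : ‖(v g : Op Λ) y‖ = ‖y‖ := by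
  have h : inner ℂ ((v g : Op Λ) y) ((v g : Op Λ) y) = inner ℂ y y := by
    rw [inner_v, ← v_mul, inv_mul_cancel, v_one]
  rw [inner_self_eq_norm_sq_to_K, inner_self_eq_norm_sq_to_K] at h
  have h2 : ‖(v g : Op Λ) y‖ ^ 2 = ‖y‖ ^ 2 := by exact_mod_cast h
  exact (sq_eq_sq₀ (norm_nonneg _) (norm_nonneg _)).1 h2

theorem inner_rgt (r : Λ) (x y : L2 Λ) : inner ℂ (rgt r x) (rgt r y) = inner ℂ x y := by
  have h : star (rgt r) * rgt r = (1 : Op Λ) := by
    rw [star_rgt]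
    apply op_ext
    intro s
    rw [mul_ap, rgt_dl, rgt_dl, mul_inv_cancel_right]
    rfl
  calc inner ℂ (rgt r x) (rgt r y) = inner ℂ x (star (rgt r) (rgt r y)) := by
        rw [ContinuousLinearMap.star_eq_adjoint, ContinuousLinearMap.adjoint_inner_right]
    _ = inner ℂ x ((star (rgt r) * rgt r) y) := rfl
    _ = inner ℂ x y := by rw [h]; rfl

/-- (1) the class function -/
theorem conj_inv (v : G →* unitary (Op Λ)) (f : G →* Λ) (χ : G →* unitary ℂ) (ζ : L2 Λ)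
    (hv : ∀ g, (v g : Op Λ) ∈ LG Λ)
    (hζ : ∀ g, (v g : Op Λ) ζ = ((χ g : unitary ℂ) : ℂ) • rgt (f g) ζ) (k g : G) :
    inner ℂ ζ ((v (k * g * k⁻¹) : Op Λ) ζ) = inner ℂ ζ ((v g : Op Λ) ζ) := by
  rw [v_mul, v_mul, inner_v, hζ k⁻¹]
  set c : ℂ := ((χ k⁻¹ : unitary ℂ) : ℂ) with hc
  have hc1 : (starRingEnd ℂ) c * c = 1 := (Unitary.mem_iff.1 (χ k⁻¹).2).1
  have h1 : (v g : Op Λ) (rgt (f k⁻¹) ζ) = rgt (f k⁻¹) ((v g : Op Λ) ζ) := by
    have := congrArg (fun z : Op Λ => z ζ) (mem_LG.1 (hv g) (f k⁻¹))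
    exact this.symm
  rw [map_smul, inner_smul_left, inner_smul_right, h1, inner_rgt, ← mul_assoc, hc1, one_mul]

/-- (2) orthonormal vectors -/
theorem orth (v : G →* unitary (Op Λ)) (hv : ∀ g, (v g : Op Λ) ∈ LG Λ)
    (h1 : ∀ g, g ≠ 1 → cf (v g : Op Λ) 1 = 0) (x : Λ) :
    Orthonormal ℂ (fun g : G => (v g : Op Λ) (dl x)) := by
  classical
  rw [orthonormal_iff_ite]
  intro g k
  rw [inner_v, ← v_mul]
  split_ifs with h
  · rw [h, inv_mul_cancel, v_one, dl_inner, if_pos rfl]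
  · have h2 : k⁻¹ * g ≠ 1 := fun h3 => h (inv_mul_eq_one.1 h3).symm
    have h3 := mem_LG_iff.1 (hv (k⁻¹ * g)) x x
    rw [mul_inv_cancel, h1 _ h2] at h3
    rw [← inner_conj_symm, h3, map_zero]

/-- the vectors `y` with `⟨ζ, v_g y⟩ → 0` -/
def SS (v : G →* unitary (Op Λ)) (ζ : L2 Λ) : Submodule ℂ (L2 Λ) where
  carrier := {y | Tendsto (fun g : G => inner ℂ ζ ((v g : Op Λ) y)) cofinite (𝓝 0)}
  add_mem' := by
    intro a b ha hb
    have := Tendsto.add ha hb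
    rw [add_zero] at this
    refine this.congr fun g => ?_
    rw [map_add, inner_add_right]
  zero_mem' := by
    refine tendsto_const_nhds.congr fun g => ?_
    rw [map_zero, inner_zero_right]
  smul_mem' := by
    intro c a ha
    have := Tendsto.const_mul c ha
    rw [mul_zero] at this
    refine this.congr fun g => ?_
    rw [map_smul, inner_smul_right]

theorem mem_SS (v : G →* unitary (Op Λ)) (ζ y : L2 Λ) : y ∈ SS v ζ ↔
    Tendsto (fun g : G => inner ℂ ζ ((v g : Op Λ) y)) cofinite (𝓝 0) := Iff.rfl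

theorem SS_closed (v : G →* unitary (Op Λ)) (ζ : L2 Λ) : IsClosed (SS v ζ : Set (L2 Λ)) := by
  apply isClosed_of_closure_subset
  intro y hy
  show y ∈ SS v ζ
  rw [mem_SS, Metric.tendsto_nhds]
  intro ε hε
  have hpos : 0 < ε / (2 * (‖ζ‖ + 1)) := by positivity
  obtain ⟨y', hy', hd⟩ := Metric.mem_closure_iff.1 hy _ hpos
  have h1 := (Metric.tendsto_nhds.1 ((mem_SS v ζ y').1 hy')) (ε / 2) (half_pos hε)
  filter_upwards [h1] with g hg
  rw [dist_zero_right] at hg ⊢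
  have e : inner ℂ ζ ((v g : Op Λ) y) =
      inner ℂ ζ ((v g : Op Λ) y') + inner ℂ ζ ((v g : Op Λ) (y - y')) := by
    rw [map_sub, inner_sub_right]
    ring
  rw [e]
  have h2 : ‖inner ℂ ζ ((v g : Op Λ) (y - y'))‖ ≤ ‖ζ‖ * ‖y - y'‖ := by
    refine (norm_inner_le_norm _ _).trans (le_of_eq ?_)
    rw [norm_v]
  have h3 : ‖ζ‖ * ‖y - y'‖ ≤ ε / 2 := by
    rw [dist_eq_norm] at hd
    calc ‖ζ‖ * ‖y - y'‖ ≤ (‖ζ‖ + 1) * (ε / (2 * (‖ζ‖ + 1))) := by
          refine mul_le_mul (by linarith) hd.le (norm_nonneg _) (by positivity)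
      _ = ε / 2 := by field_simp
  calc _ ≤ ‖inner ℂ ζ ((v g : Op Λ) y')‖ + ‖inner ℂ ζ ((v g : Op Λ) (y - y'))‖ := norm_add_le _ _
    _ < ε / 2 + ε / 2 := by linarith
    _ = ε := by ring

theorem dl_mem (v : G →* unitary (Op Λ)) (ζ : L2 Λ) (hv : ∀ g, (v g : Op Λ) ∈ LG Λ)
    (h1 : ∀ g, g ≠ 1 → cf (v g : Op Λ) 1 = 0) (x : Λ) : dl x ∈ SS v ζ := by
  rw [mem_SS]
  have h2 : Summable (fun g : G => ‖inner ℂ ((v g : Op Λ) (dl x)) ζ‖ ^ 2) :=
    (orth v hv h1 x).inner_products_summable ζ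
  have h3 := h2.tendsto_cofinite_zero
  rw [tendsto_zero_iff_norm_tendsto_zero]
  have h4 := h3.sqrt
  rw [Real.sqrt_zero] at h4
  refine h4.congr fun g => ?_
  rw [Real.sqrt_sq (norm_nonneg _), norm_inner_symm]

theorem all_mem (v : G →* unitary (Op Λ)) (ζ : L2 Λ) (hv : ∀ g, (v g : Op Λ) ∈ LG Λ)
    (h1 : ∀ g, g ≠ 1 → cf (v g : Op Λ) 1 = 0) (y : L2 Λ) : y ∈ SS v ζ := by
  classical
  have h2 : HasSum (fun i => lp.single 2 i (y i)) y := lp.hasSum_single (by norm_num) y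
  refine (SS_closed v ζ).mem_of_tendsto h2 (Eventually.of_forall fun s => ?_)
  refine (SS v ζ).sum_mem fun i _ => ?_
  have h3 : (lp.single 2 i (y i) : L2 Λ) = y i • dl i := by
    apply vec_ext
    intro t
    by_cases ht : t = i
    · subst ht
      rw [lp.coeFn_smul, Pi.smul_apply, dl_apply_self]
      simp
    · rw [lp.coeFn_smul, Pi.smul_apply, dl_apply_ne ht]
      simp [lp.single_apply, ht]
  rw [h3]
  exact (SS v ζ).smul_mem _ (dl_mem v ζ hv h1 i)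

theorem main : Pool.Agent.N414.LR.S_CLS := by
  intro G Λ _ _ v f χ ζ hicc hv h1 hζ g hg
  by_contra hne
  have ht := all_mem v ζ hv h1 ζ
  rw [mem_SS, Metric.tendsto_nhds] at ht
  have h2 := ht _ (norm_pos_iff.2 hne)
  rw [Filter.eventually_cofinite] at h2
  refine hicc g hg (h2.subset ?_)
  rintro _ ⟨k, rfl⟩
  show ¬ _
  rw [dist_zero_right, conj_inv v f χ ζ hv hζ k g]
  exact lt_irrefl _

end

end Pool.Agent.N414.LR.CLS
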