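import Pool.Agent.N414.LR.Stm

/-!
# Project LR, parts END and DEN: the last step and the density (helper11)
-/

set_option autoImplicit false

namespace Pool.Agent.N414.LR.END

open Pool.Agent.H494R3.GT Pool.Agent.N557.QW Pool.Agent.N169.QWP

noncomputable section

lemma ext_LG {Λ : Type} [Group Λ] {x y : Op Λ} (hx : x ∈ LG Λ) (hy : y ∈ LG Λ)
    (h : x (dl 1) = y (dl 1)) : x = y := by
  apply op_ext
  intro s
  have h1 := congrArg (fun z : L2 Λ →L[ℂ] L2 Λ => z (dl 1)) (mem_LG.1 hx s)
  have h2 := congrArg (fun z : L2 Λ →L[ℂ] L2 Λ => z (dl 1)) (mem_LG.1 hy s)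
  simp only [mul_ap, rgt_dl, one_mul] at h1 h2
  rw [← h1, ← h2, h]

lemma span_dl (P : Type) :
    (Submodule.span ℂ (Set.range (dl : P → L2 P))).topologicalClosure = ⊤ := by
  rw [Submodule.topologicalClosure_eq_top_iff, Submodule.eq_bot_iff]
  intro v hv
  apply vec_ext
  intro x
  rw [← inner_dl]
  exact (Submodule.mem_orthogonal _ _).1 hv _ (Submodule.subset_span ⟨x, rfl⟩)

lemma cf_lam_ne {Λ : Type} [Group Λ] {h : Λ} (hh : h ≠ 1) : cf (lam h) 1 = 0 := by
  rw [cf, lam_dl, mul_one, inner_dl]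
  exact dl_apply_ne hh.symm

lemma cf_one_one {Λ : Type} [Group Λ] : cf (1 : Op Λ) 1 = 1 := by
  rw [cf, inner_dl]
  exact dl_apply_self _

lemma cf_smul {Λ : Type} [Group Λ] (c : ℂ) (x : Op Λ) (h : Λ) : cf (c • x) h = c * cf x h := by
  rw [cf, cf]
  change inner ℂ (dl h) (c • x (dl 1)) = _
  rw [inner_smul_right]

lemma cf_comm {Λ : Type} [Group Λ] {x y : Op Λ} (hx : x ∈ LG Λ) (hy : y ∈ LG Λ) :
    cf (x * y) 1 = cf (y * x) 1 :=
  (t_com Λ).2.tracial x hx y hy

lemma mul_mem' {Λ : Type} [Group Λ] {x y : Op Λ} (hx : x ∈ LG Λ) (hy : y ∈ LG Λ) :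
    x * y ∈ LG Λ := (LG Λ).toStarSubalgebra.mul_mem hx hy

lemma smul_mem' {Λ : Type} [Group Λ] (c : ℂ) {x : Op Λ} (hx : x ∈ LG Λ) :
    c • x ∈ LG Λ := (LG Λ).toStarSubalgebra.smul_mem hx c

lemma star_mem' {Λ : Type} [Group Λ] {x : Op Λ} (hx : x ∈ LG Λ) :
    star x ∈ LG Λ := StarMemClass.star_mem (s := (LG Λ).toStarSubalgebra) hx

theorem t_end : S_END := by
  intro G Λ _ _ v f χ w hv hcf hdense hw hwu hvw
  have hw1 : star w * w = 1 := hwu.1
  have hw2 : w * star w = 1 := hwu.2
  have key : ∀ g, (v g : Op Λ) = ((χ g : unitary ℂ) : ℂ) • (w * lam (f g) * star w) := by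
    intro g
    have h1 : (v g : Op Λ) * w = ((χ g : unitary ℂ) : ℂ) • (w * lam (f g)) := by
      apply ext_LG (mul_mem' (hv g) hw) (smul_mem' _ (mul_mem' hw (lam_mem _)))
      rw [mul_ap, hvw g]
      change _ = ((χ g : unitary ℂ) : ℂ) • (w * lam (f g)) (dl 1)
      congr 1
      have h2 := congrArg (fun z : L2 Λ →L[ℂ] L2 Λ => z (dl 1)) (mem_LG.1 hw (f g))
      simp only [mul_ap] at h2
      rw [h2, mul_ap, rgt_dl, lam_dl, one_mul, mul_one]
    calc (v g : Op Λ) = (v g : Op Λ) * (w * star w) := by rw [hw2, mul_one]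
      _ = ((v g : Op Λ) * w) * star w := (mul_assoc _ _ _).symm
      _ = ((χ g : unitary ℂ) : ℂ) • (w * lam (f g) * star w) := by rw [h1, smul_mul_assoc]
  have hχ : ∀ g, ((χ g : unitary ℂ) : ℂ) ≠ 0 := by
    intro g h0
    have h1 : star ((χ g : unitary ℂ) : ℂ) * ((χ g : unitary ℂ) : ℂ) = 1 := (χ g).2.1
    rw [h0, mul_zero] at h1
    exact zero_ne_one h1
  refine ⟨⟨?_, ?_⟩, key⟩
  · rw [injective_iff_map_eq_one]
    intro g hg
    by_contra hg1
    have h1 := hcf g hg1
    rw [key g, hg, lam_one, mul_one, hw2, cf_smul, cf_one_one, mul_one] at h1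
    exact hχ g h1
  · intro k
    by_contra hk
    push Not at hk
    set y : Op Λ := w * lam k * star w with hy
    have hyu : ‖y (dl 1)‖ = 1 := by
      have h1 : star y * y = 1 := by
        have e1 : star y = w * star (lam k) * star w := by
          rw [hy, star_mul, star_mul, star_star, mul_assoc]
        rw [e1, hy, star_lam]
        calc w * lam k⁻¹ * star w * (w * lam k * star w)
            = w * lam k⁻¹ * (star w * w) * (lam k * star w) := by simp only [mul_assoc]
          _ = w * (lam k⁻¹ * lam k) * star w := by rw [hw1]; simp only [mul_assoc, mul_one, one_mul]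
          _ = 1 := by rw [← lam_mul, inv_mul_cancel, lam_one, mul_one, hw2]
      have h2 : ‖y (dl 1)‖ ^ 2 = RCLike.re (inner ℂ ((star y * y) (dl 1)) (dl 1 : L2 Λ)) :=
        y.apply_norm_sq_eq_inner_adjoint_left (dl 1)
      rw [h1] at h2
      change ‖y (dl 1)‖ ^ 2 = RCLike.re (inner ℂ (dl 1 : L2 Λ) (dl 1 : L2 Λ)) at h2
      rw [inner_self_eq_norm_sq, (t_com Λ).2.unit, one_pow] at h2
      exact (pow_eq_one_iff_of_nonneg (norm_nonneg _) two_ne_zero).1 h2
    have hort : ∀ g, inner ℂ ((v g : Op Λ) (dl 1)) (y (dl 1)) = 0 := by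
      intro g
      have h1 : inner ℂ ((v g : Op Λ) (dl 1)) (y (dl 1)) = cf (star (v g : Op Λ) * y) 1 := by
        rw [cf, mul_ap]
        exact (ContinuousLinearMap.adjoint_inner_right (v g : Op Λ) (dl 1) (y (dl 1))).symm
      rw [h1]
      have e1 : star (v g : Op Λ) = star ((χ g : unitary ℂ) : ℂ) •
          (w * lam (f g)⁻¹ * star w) := by
        rw [key g, star_smul, star_mul, star_mul, star_star, star_lam, mul_assoc]
      have e2 : star (v g : Op Λ) * y = star ((χ g : unitary ℂ) : ℂ) •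
          (w * (lam ((f g)⁻¹ * k) * star w)) := by
        rw [e1, smul_mul_assoc, hy]
        congr 1
        calc w * lam (f g)⁻¹ * star w * (w * lam k * star w)
            = w * lam (f g)⁻¹ * (star w * w) * (lam k * star w) := by simp only [mul_assoc]
          _ = w * (lam ((f g)⁻¹ * k) * star w) := by
            rw [hw1, lam_mul]
            simp only [mul_assoc, one_mul]
      rw [e2, cf_smul, cf_comm hw (mul_mem' (lam_mem _) (star_mem' hw)), mul_assoc, hw1, mul_one,
        cf_lam_ne, mul_zero]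
      intro h0
      exact hk g (inv_mul_eq_one.1 h0)
    have hz : y (dl 1) ∈ (Submodule.span ℂ
        (Set.range fun g => (v g : Op Λ) (dl 1)))ᗮ := by
      rw [Submodule.mem_orthogonal]
      intro u hu
      induction hu using Submodule.span_induction with
      | mem x hx =>
        obtain ⟨g, rfl⟩ := hx
        exact hort g
      | zero => exact inner_zero_left _
      | add x y _ _ hx hy => rw [inner_add_left, hx, hy, add_zero]
      | smul c x _ hx => rw [inner_smul_left, hx, mul_zero]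
    rw [(Submodule.topologicalClosure_eq_top_iff).1 hdense, Submodule.mem_bot] at hz
    rw [hz, norm_zero] at hyu
    exact zero_ne_one hyu

theorem t_den : S_DEN := by
  intro Γ Λ _ _ θ hθ
  have hlu : ∀ g : Γ, star (lam g : Op Γ) * lam g = 1 ∧ (lam g : Op Γ) * star (lam g) = 1 := by
    intro g
    rw [star_lam, ← lam_mul, ← lam_mul, inv_mul_cancel, mul_inv_cancel, lam_one]
    exact ⟨rfl, rfl⟩
  let L : Γ → (LG Γ).toStarSubalgebra := fun g => ⟨lam g, lam_mem g⟩
  have hL1 : L 1 = 1 := Subtype.ext lam_one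
  have hLm : ∀ g h, L (g * h) = L g * L h := fun g h => Subtype.ext (lam_mul g h)
  have hLu : ∀ g, star (L g) * L g = 1 ∧ L g * star (L g) = 1 := fun g =>
    ⟨Subtype.ext (hlu g).1, Subtype.ext (hlu g).2⟩
  have hstar : ∀ z, θ (star z) = star (θ z) := fun z => θ.map_star' z
  have hvu : ∀ g, star ((θ (L g) : (LG Λ).toStarSubalgebra) : Op Λ) * (θ (L g) : Op Λ) = 1 ∧
      ((θ (L g) : (LG Λ).toStarSubalgebra) : Op Λ) * star (θ (L g) : Op Λ) = 1 := by
    intro g
    constructor
    · have h1 := congrArg (fun z => ((θ z : (LG Λ).toStarSubalgebra) : Op Λ)) (hLu g).1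
      beta_reduce at h1
      rw [map_mul, hstar, map_one] at h1
      exact h1
    · have h1 := congrArg (fun z => ((θ z : (LG Λ).toStarSubalgebra) : Op Λ)) (hLu g).2
      beta_reduce at h1
      rw [map_mul, hstar, map_one] at h1
      exact h1
  let v : Γ →* unitary (Op Λ) :=
    { toFun := fun g => ⟨(θ (L g) : Op Λ), Unitary.mem_iff.2 (hvu g)⟩
      map_one' := by
        apply Subtype.ext
        change ((θ (L 1) : (LG Λ).toStarSubalgebra) : Op Λ) = 1
        rw [hL1, map_one]
        rfl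
      map_mul' := fun g h => by
        apply Subtype.ext
        change ((θ (L (g * h)) : (LG Λ).toStarSubalgebra) : Op Λ) =
          ((θ (L g) : (LG Λ).toStarSubalgebra) : Op Λ) * ((θ (L h) : (LG Λ).toStarSubalgebra) : Op Λ)
        rw [hLm, map_mul]
        rfl }
  have hvθ : ∀ g, (v g : Op Λ) = (θ ⟨lam g, lam_mem g⟩ : Op Λ) := fun g => rfl
  refine ⟨v, hvθ, fun g => (θ (L g)).2, ?_, ?_⟩
  · intro g hg
    rw [hvθ, hθ]
    exact cf_lam_ne hg
  · -- the norm
    have hnorm : ∀ z : (LG Γ).toStarSubalgebra, ‖(θ z : Op Λ) (dl 1)‖ = ‖(z : Op Γ) (dl 1)‖ := by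
      intro z
      have h1 : ‖(θ z : Op Λ) (dl 1)‖ ^ 2 = ‖(z : Op Γ) (dl 1)‖ ^ 2 := by
        have e : ∀ (Q : Type) [Group Q] (x : Op Q),
            ‖x (dl 1)‖ ^ 2 = RCLike.re (cf (star x * x) 1) := by
          intro Q _ x
          rw [x.apply_norm_sq_eq_inner_adjoint_right (dl 1)]
          rfl
        rw [e, e]
        have h2 := hθ (star z * z)
        rw [map_mul, hstar] at h2
        exact congrArg RCLike.re h2
      exact (pow_left_inj₀ (norm_nonneg _) (norm_nonneg _) two_ne_zero).1 h1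
    set M := (Submodule.span ℂ (Set.range fun g => (v g : Op Λ) (dl 1))) with hM
    have hcomb : ∀ s ∈ Submodule.span ℂ (Set.range (dl : Γ → L2 Γ)),
        ∃ a : (LG Γ).toStarSubalgebra, (a : Op Γ) (dl 1) = s ∧ (θ a : Op Λ) (dl 1) ∈ M := by
      intro s hs
      induction hs using Submodule.span_induction with
      | mem x hx =>
        obtain ⟨g, rfl⟩ := hx
        refine ⟨L g, ?_, Submodule.subset_span ⟨g, rfl⟩⟩
        change lam g (dl 1) = dl g
        rw [lam_dl, mul_one]
      | zero =>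
        refine ⟨0, rfl, ?_⟩
        rw [map_zero]
        exact M.zero_mem
      | add x y _ _ hx hy =>
        obtain ⟨a, ha1, ha2⟩ := hx
        obtain ⟨b, hb1, hb2⟩ := hy
        refine ⟨a + b, ?_, ?_⟩
        · rw [← ha1, ← hb1]; rfl
        · rw [map_add]
          exact M.add_mem ha2 hb2
      | smul c x _ hx =>
        obtain ⟨a, ha1, ha2⟩ := hx
        refine ⟨c • a, ?_, ?_⟩
        · rw [← ha1]; rfl
        · rw [map_smul]
          exact M.smul_mem c ha2
    have hdl : ∀ h : Λ, (dl h : L2 Λ) ∈ M.topologicalClosure := by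
      intro h
      change (dl h : L2 Λ) ∈ closure (M : Set (L2 Λ))
      rw [Metric.mem_closure_iff]
      intro ε hε
      let x : (LG Γ).toStarSubalgebra := θ.symm ⟨lam h, lam_mem h⟩
      have hx : (x : Op Γ) (dl 1) ∈
          closure ((Submodule.span ℂ (Set.range (dl : Γ → L2 Γ)) : Submodule ℂ (L2 Γ)) :
            Set (L2 Γ)) := by
        change (x : Op Γ) (dl 1) ∈ (Submodule.span ℂ (Set.range (dl : Γ → L2 Γ))).topologicalClosure
        rw [span_dl]
        exact Submodule.mem_top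
      rw [Metric.mem_closure_iff] at hx
      obtain ⟨s, hs, hsx⟩ := hx ε hε
      obtain ⟨a, ha1, ha2⟩ := hcomb s hs
      refine ⟨_, ha2, ?_⟩
      have h1 : (θ x : Op Λ) (dl 1) = dl h := by
        change ((θ (θ.symm ⟨lam h, lam_mem h⟩) : (LG Λ).toStarSubalgebra) : Op Λ) (dl 1) = dl h
        rw [StarAlgEquiv.apply_symm_apply]
        change lam h (dl 1) = dl h
        rw [lam_dl, mul_one]
      rw [← h1, dist_eq_norm]
      have h2 : (θ x : Op Λ) (dl 1) - (θ a : Op Λ) (dl 1) = (θ (x - a) : Op Λ) (dl 1) := by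
        rw [map_sub]
        rfl
      rw [h2, hnorm]
      have h3 : ((x - a : (LG Γ).toStarSubalgebra) : Op Γ) (dl 1) = (x : Op Γ) (dl 1) - s := by
        rw [← ha1]
        rfl
      rw [h3, ← dist_eq_norm]
      exact hsx
    rw [eq_top_iff, ← span_dl Λ]
    apply Submodule.topologicalClosure_minimal _ _ (Submodule.isClosed_topologicalClosure _)
    rw [Submodule.span_le]
    rintro _ ⟨h, rfl⟩
    exact hdl h

theorem main : Pool.Agent.N414.LR.S_END ∧ Pool.Agent.N414.LR.S_DEN := ⟨t_end, t_den⟩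

end

end Pool.Agent.N414.LR.END
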