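import Pool.Agent.N414.LR.Stm

/-!
# Project LR, part HOM: the place of the large coefficient is a homomorphism
-/

set_option autoImplicit false

namespace Pool.Agent.N414.LR.HOM

open Pool.Agent.H494R3.GT Pool.Agent.N557.QW

variable {P : Type}

theorem norm_dl (x : P) : ‖(dl x : L2 P)‖ = 1 :=
  (dl_orthonormal (P := P) (f := fun g : P => g) Function.injective_id).1 x

/-- two different places -/
theorem two_places (w : L2 P) (hw : ‖w‖ = 1) {p q : P} (hpq : p ≠ q) :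
    ‖w p‖ ^ 2 + ‖w q‖ ^ 2 ≤ 1 := by
  classical
  have h1 := (dl_orthonormal (P := P) (f := fun g : P => g)
    Function.injective_id).sum_inner_products_le (x := w) (s := {p, q})
  rw [Finset.sum_pair hpq, hw] at h1
  simp only [inner_dl] at h1
  linarith

/-- the rest -/
theorem rest (w : L2 P) (hw : ‖w‖ = 1) (p : P) :
    ‖w - w p • dl p‖ ^ 2 = 1 - ‖w p‖ ^ 2 := by
  have h0 : inner ℂ (w p • dl p) (w - w p • dl p) = 0 := by
    rw [inner_smul_left, inner_dl]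
    have e1 : (w - w p • dl p : L2 P) p = 0 := by
      rw [lp.coeFn_sub, Pi.sub_apply, lp.coeFn_smul, Pi.smul_apply, dl_apply_self, smul_eq_mul,
        mul_one, sub_self]
    rw [e1, mul_zero]
  have h1 := norm_add_sq_eq_norm_sq_add_norm_sq_of_inner_eq_zero (𝕜 := ℂ) (w p • dl p)
    (w - w p • dl p) h0
  rw [add_sub_cancel, hw, norm_smul, norm_dl] at h1
  nlinarith [h1]

theorem coord_le (w : L2 P) (p : P) : ‖w p‖ ≤ ‖w‖ := by
  rw [← inner_dl]
  have h := norm_inner_le_norm (𝕜 := ℂ) (dl p) w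
  rwa [norm_dl, one_mul] at h

theorem main : Pool.Agent.N414.LR.S_HOM := by
  intro G Λ _ _ v η hv hη0 hη1 hex
  choose f hf using hex
  have hcf : ∀ g h, cf (v g : Op Λ) h = ((v g : Op Λ) (dl 1)) h := fun g h => by
    rw [cf, inner_dl]
  have hn : ∀ g, ‖(v g : Op Λ) (dl 1)‖ = 1 := fun g => by
    rw [Unitary.norm_map, norm_dl]
  have huniq : ∀ g h, 1 / 2 ≤ ‖cf (v g : Op Λ) h‖ → h = f g := by
    intro g h hh
    by_contra hne
    have h1 := two_places _ (hn g) hne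
    rw [← hcf, ← hcf] at h1
    have h2 : (99 / 100 : ℝ) ≤ ‖cf (v g : Op Λ) (f g)‖ := by
      have := hf g
      linarith
    nlinarith
  refine ⟨MonoidHom.mk' f fun g k => ?_, hf⟩
  symm
  apply huniq
  obtain ⟨w, hw⟩ : ∃ w, w = (v k : Op Λ) (dl 1) := ⟨_, rfl⟩
  have hw1 : ‖w‖ = 1 := by rw [hw, hn]
  obtain ⟨a, ha⟩ : ∃ a, a = w (f k) := ⟨_, rfl⟩
  have ha1 : (99 / 100 : ℝ) ≤ ‖a‖ := by
    have := hf k
    rw [hcf, ← hw, ← ha] at this
    linarith
  have hb1 : (99 / 100 : ℝ) ≤ ‖cf (v g : Op Λ) (f g)‖ := by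
    have := hf g
    linarith
  obtain ⟨r, hr⟩ : ∃ r, r = w - a • dl (f k) := ⟨_, rfl⟩
  have hr2 : ‖r‖ ^ 2 = 1 - ‖a‖ ^ 2 := by
    rw [hr, ha]
    exact rest w hw1 (f k)
  have hr3 : ‖r‖ ≤ 1 / 5 := by
    nlinarith [norm_nonneg r]
  have hwr : w = a • dl (f k) + r := by
    rw [hr, add_sub_cancel]
  have hgk : cf (v (g * k) : Op Λ) (f g * f k) =
      a * cf (v g : Op Λ) (f g) + ((v g : Op Λ) r) (f g * f k) := by
    have e1 : ((v (g * k) : unitary (Op Λ)) : Op Λ) (dl 1) = (v g : Op Λ) w := by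
      rw [map_mul, hw]
      rfl
    have e2 : ((v g : Op Λ) (dl (f k))) (f g * f k) = cf (v g : Op Λ) (f g) := by
      rw [← inner_dl, mem_LG_iff.1 (hv g), mul_inv_cancel_right]
    rw [hcf, e1, hwr, map_add, map_smul, lp.coeFn_add, Pi.add_apply, lp.coeFn_smul, Pi.smul_apply,
      smul_eq_mul, e2]
  have hlast : ‖((v g : Op Λ) r) (f g * f k)‖ ≤ 1 / 5 := by
    refine le_trans (coord_le _ _) ?_
    rw [Unitary.norm_map]
    exact hr3
  have hmain : ‖a * cf (v g : Op Λ) (f g)‖ ≤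
      ‖cf (v (g * k) : Op Λ) (f g * f k)‖ + ‖((v g : Op Λ) r) (f g * f k)‖ := by
    have e3 : a * cf (v g : Op Λ) (f g) =
        cf (v (g * k) : Op Λ) (f g * f k) - ((v g : Op Λ) r) (f g * f k) := by
      rw [hgk, add_sub_cancel_right]
    rw [e3]
    exact norm_sub_le _ _
  rw [norm_mul] at hmain
  nlinarith

end Pool.Agent.N414.LR.HOM
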