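import Pool.Agent.N414.LR.Stm

/-!
# Project LR, RE0: the representation with the coefficient `g ↦ ∑ a_h |a_h|²`
-/

set_option autoImplicit false

namespace Pool.Agent.N414.LR.RE0

open Pool.Agent.H494R3.GT Pool.Agent.N557.QW Pool.Agent.N169.QWP

noncomputable section

section conj

variable {P : Type}

/-- conjugation by a permutation operator -/
def cj (τ : Equiv.Perm P) (x : Op P) : Op P := UU τ⁻¹ * x * UU τ

lemma cj_entry (τ : Equiv.Perm P) (x : Op P) (p q : P) :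
    (cj τ x (dl p)) q = (x (dl (τ p))) (τ q) := by
  rw [cj, mul_ap, mul_ap, UU_dl, UU_apply, inv_inv]

lemma cj_one (τ : Equiv.Perm P) : cj τ 1 = 1 := by
  rw [cj, mul_one, UU_mul, inv_mul_cancel, UU_one]

lemma cj_mul (τ : Equiv.Perm P) (x y : Op P) : cj τ (x * y) = cj τ x * cj τ y := by
  have h : UU τ * UU τ⁻¹ = (1 : Op P) := by rw [UU_mul, mul_inv_cancel, UU_one]
  calc cj τ (x * y) = UU τ⁻¹ * x * (1 : Op P) * y * UU τ := by
        rw [cj, mul_one]; simp only [mul_assoc]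
    _ = cj τ x * cj τ y := by rw [← h, cj, cj]; simp only [mul_assoc]

lemma cj_star (τ : Equiv.Perm P) (x : Op P) : cj τ (star x) = star (cj τ x) := by
  rw [cj, cj, star_mul, star_mul, star_UU, star_UU, inv_inv, mul_assoc]

end conj

variable {Λ : Type} [Group Λ]

/-- the permutation `(x, y) ↦ (x, y x⁻¹)` -/
def ee (Λ : Type) [Group Λ] : Equiv.Perm (Λ × Λ) where
  toFun p := (p.1, p.2 * p.1⁻¹)
  invFun p := (p.1, p.2 * p.1)
  left_inv p := by simp
  right_inv p := by simp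

lemma ee_ap (p : Λ × Λ) : ee Λ p = (p.1, p.2 * p.1⁻¹) := rfl

open scoped Classical in
theorem main : Pool.Agent.N414.LR.S_TEN → Pool.Agent.N414.LR.S_BAR →
    Pool.Agent.N414.LR.S_RE0 := by
  intro hT hC G Λ _ _ v hv
  obtain ⟨T, T1, Tm, Ts, Te⟩ := hT Λ Λ
  obtain ⟨C, C1, Cm, Cs, Ce⟩ := hC Λ
  have Te' : ∀ x y p q p' q', (T x y (dl (p, q))) (p', q') =
      (x (dl p)) p' * (y (dl q)) q' := by
    intro x y p q p' q'
    rw [← inner_dl, ← inner_dl, ← inner_dl, Te]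
  have Ce' : ∀ x p q, (C x (dl p)) q = (starRingEnd ℂ) ((x (dl p)) q) := by
    intro x p q
    rw [← inner_dl, ← inner_dl, Ce]
  let X : Op Λ → Op (Λ × Λ) := fun x => cj (ee Λ) (T (cj (Equiv.inv Λ) (C x)) 1)
  have X1 : X 1 = 1 := by
    change cj (ee Λ) (T (cj (Equiv.inv Λ) (C 1)) 1) = 1
    rw [C1, cj_one, T1, cj_one]
  have Xm : ∀ x y, X (x * y) = X x * X y := by
    intro x y
    change cj (ee Λ) (T (cj (Equiv.inv Λ) (C (x * y))) 1) =
      cj (ee Λ) (T (cj (Equiv.inv Λ) (C x)) 1) * cj (ee Λ) (T (cj (Equiv.inv Λ) (C y)) 1)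
    rw [Cm, cj_mul, ← cj_mul (ee Λ), ← Tm, one_mul]
  have Xs : ∀ x, X (star x) = star (X x) := by
    intro x
    change cj (ee Λ) (T (cj (Equiv.inv Λ) (C (star x))) 1) =
      star (cj (ee Λ) (T (cj (Equiv.inv Λ) (C x)) 1))
    rw [Cs, cj_star, ← cj_star (ee Λ), Ts, star_one]
  have Xe : ∀ x ∈ LG Λ, ∀ a b a' b', (X x (dl (a, b))) (a', b') =
      (starRingEnd ℂ) (cf x (a'⁻¹ * a)) * (if b * a⁻¹ = b' * a'⁻¹ then 1 else 0) := by
    intro x hx a b a' b'
    change (cj (ee Λ) (T (cj (Equiv.inv Λ) (C x)) 1) (dl (a, b))) (a', b') = _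
    rw [cj_entry, ee_ap, ee_ap]
    rw [Te', cj_entry, Ce', LG_coeff hx]
    congr 1
    · simp only [Equiv.inv_apply, inv_inv]
    · change (dl (b * a⁻¹) : L2 Λ) (b' * a'⁻¹) = _
      by_cases h : b * a⁻¹ = b' * a'⁻¹
      · rw [if_pos h, h, dl_apply_self]
      · rw [if_neg h, dl_apply_ne (fun h' => h h'.symm)]
  have Xc : ∀ x ∈ LG Λ, ∀ g : Λ × Λ, lam g * X x = X x * lam g := by
    intro x hx g
    apply op_ext
    rintro ⟨a, b⟩
    apply vec_ext
    rintro ⟨a', b'⟩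
    rw [mul_ap, mul_ap, lam_dl]
    have h1 : ∀ w : L2 (Λ × Λ), (lam g w) (a', b') = w (g⁻¹ * (a', b')) := by
      intro w
      rw [lam, UU_apply]
      rfl
    rw [h1]
    obtain ⟨h, k⟩ := g
    have e1 : ((h, k) : Λ × Λ)⁻¹ * (a', b') = (h⁻¹ * a', k⁻¹ * b') := rfl
    have e2 : ((h, k) : Λ × Λ) * (a, b) = (h * a, k * b) := rfl
    rw [e1, e2, Xe x hx, Xe x hx]
    congr 1
    · congr 2
      group
    · have e3 : b * a⁻¹ = k⁻¹ * b' * (h⁻¹ * a')⁻¹ ↔ k * b * (h * a)⁻¹ = b' * a'⁻¹ := by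
        constructor
        · intro e
          calc k * b * (h * a)⁻¹ = k * (b * a⁻¹) * h⁻¹ := by group
            _ = b' * a'⁻¹ := by rw [e]; group
        · intro e
          calc b * a⁻¹ = k⁻¹ * (k * b * (h * a)⁻¹) * h := by group
            _ = k⁻¹ * b' * (h⁻¹ * a')⁻¹ := by rw [e]; group
      by_cases h5 : b * a⁻¹ = k⁻¹ * b' * (h⁻¹ * a')⁻¹
      · rw [if_pos h5, if_pos (e3.1 h5)]
      · rw [if_neg h5, if_neg (fun h6 => h5 (e3.2 h6))]
  have TL : ∀ x ∈ LG Λ, ∀ y ∈ LG Λ, T x y ∈ LG (Λ × Λ) := by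
    intro x hx y hy
    rw [mem_LG_iff]
    rintro ⟨s, t⟩ ⟨s', t'⟩
    rw [cf, inner_dl, inner_dl]
    have e1 : ((s', t') : Λ × Λ) * (s, t)⁻¹ = (s' * s⁻¹, t' * t⁻¹) := rfl
    have e2 : (1 : Λ × Λ) = (1, 1) := rfl
    rw [e1, e2, Te', Te', LG_coeff hx, LG_coeff hy, LG_coeff hx, LG_coeff hy]
    simp
  have comm : ∀ x ∈ LG Λ, ∀ y ∈ LG Λ, X x * T y y = T y y * X x := by
    intro x hx y hy
    exact commute (TL y hy y hy) (Xc x hx)
  have un1 : ∀ x : unitary (Op Λ), star (x : Op Λ) * (x : Op Λ) = 1 := fun x =>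
    (Unitary.mem_iff.1 x.2).1
  have un2 : ∀ x : unitary (Op Λ), (x : Op Λ) * star (x : Op Λ) = 1 := fun x =>
    (Unitary.mem_iff.1 x.2).2
  have Tu1 : ∀ x : unitary (Op Λ), star (T x x) * T x x = 1 := by
    intro x
    rw [Ts, ← Tm, un1, T1]
  have Tu2 : ∀ x : unitary (Op Λ), T x x * star (T x x) = 1 := by
    intro x
    rw [Ts, ← Tm, un2, T1]
  have Xu1 : ∀ x : unitary (Op Λ), star (X x) * X x = 1 := by
    intro x
    rw [← Xs, ← Xm, un1, X1]
  have Xu2 : ∀ x : unitary (Op Λ), X x * star (X x) = 1 := by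
    intro x
    rw [← Xs, ← Xm, un2, X1]
  have hu : ∀ g, T (v g) (v g) * X (v g) ∈ unitary (Op (Λ × Λ)) := by
    intro g
    rw [Unitary.mem_iff, star_mul]
    constructor
    · calc star (X (v g)) * star (T (v g) (v g)) * (T (v g) (v g) * X (v g))
          = star (X (v g)) * (star (T (v g) (v g)) * T (v g) (v g)) * X (v g) := by
            simp only [mul_assoc]
        _ = 1 := by rw [Tu1, mul_one, Xu1]
    · calc T (v g) (v g) * X (v g) * (star (X (v g)) * star (T (v g) (v g)))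
          = T (v g) (v g) * (X (v g) * star (X (v g))) * star (T (v g) (v g)) := by
            simp only [mul_assoc]
        _ = 1 := by rw [Xu2, mul_one, Tu2]
  refine ⟨{ toFun := fun g => ⟨T (v g) (v g) * X (v g), hu g⟩, map_one' := ?_, map_mul' := ?_ },
    ?_⟩
  · apply Subtype.ext
    change T ((v 1 : unitary (Op Λ)) : Op Λ) (v 1 : unitary (Op Λ)) *
      X ((v 1 : unitary (Op Λ)) : Op Λ) = 1
    rw [map_one]
    change T 1 1 * X 1 = 1
    rw [T1, X1, one_mul]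
  · intro g h
    apply Subtype.ext
    change T ((v (g * h) : unitary (Op Λ)) : Op Λ) (v (g * h) : unitary (Op Λ)) *
      X ((v (g * h) : unitary (Op Λ)) : Op Λ) =
      T (v g) (v g) * X (v g) * (T (v h) (v h) * X (v h))
    have e : ((v (g * h) : unitary (Op Λ)) : Op Λ) = (v g : Op Λ) * (v h : Op Λ) := by
      rw [map_mul]; rfl
    rw [e, Tm, Xm]
    calc T (v g) (v g) * T (v h) (v h) * (X (v g) * X (v h))
        = T (v g) (v g) * (T (v h) (v h) * X (v g)) * X (v h) := by simp only [mul_assoc]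
      _ = T (v g) (v g) * (X (v g) * T (v h) (v h)) * X (v h) := by
          rw [comm _ (hv g) _ (hv h)]
      _ = T (v g) (v g) * X (v g) * (T (v h) (v h) * X (v h)) := by simp only [mul_assoc]
  · intro g
    change inner ℂ (dl ((1 : Λ), (1 : Λ)))
      ((T (v g) (v g) * X (v g)) (dl (1, 1))) = _
    rw [inner_dl, mul_ap, mul_coeff]
    have hinj : Function.Injective (fun h : Λ => ((h⁻¹, h⁻¹) : Λ × Λ)) := by
      intro h h' e
      exact inv_injective (Prod.ext_iff.1 e).1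
    rw [← hinj.tsum_eq]
    · refine tsum_congr fun h => ?_
      rw [Te', Xe _ (hv g), LG_coeff (hv g)]
      have e1 : (1 : Λ) * (h⁻¹)⁻¹ = h := by group
      have e2 : (h⁻¹)⁻¹ * (1 : Λ) = h := by group
      have e3 : (1 : Λ) * 1⁻¹ = h⁻¹ * (h⁻¹)⁻¹ := by group
      rw [e1, e2, if_pos e3, mul_one, mul_assoc, Complex.mul_conj, Complex.normSq_eq_norm_sq]
    · rintro ⟨a, b⟩ hab
      by_cases e : a = b
      · subst e
        exact ⟨a⁻¹, by simp⟩
      · exfalso
        apply hab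
        beta_reduce
        rw [Xe _ (hv g), if_neg, mul_zero, mul_zero]
        intro e'
        apply e
        have : b * a⁻¹ = 1 := by rw [← e']; group
        exact (mul_inv_eq_one.1 this).symm

end

end Pool.Agent.N414.LR.RE0
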