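import Pool.Agent.N414.LR.Stm

/-!
# LR/SQ and LR/PI (helper335): coefficients of unitaries, and the representation `v g · rgt (f g)⁻¹`
-/

set_option autoImplicit false

namespace Pool.Agent.N414.LR.SQ

open Pool.Agent.H494R3.GT Pool.Agent.N557.QW Pool.Agent.N414.LR

noncomputable section

lemma cf_eq {Λ : Type} [Group Λ] (x : Op Λ) (h : Λ) : cf x h = (x (dl 1)) h := by
  unfold cf
  rw [inner_dl]

lemma norm_dl {P : Type} (p : P) : ‖(dl p : L2 P)‖ = 1 :=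
  (dl_orthonormal (P := P) (f := fun q : P => q) Function.injective_id).1 p

theorem t_sq : S_SQ := by
  intro Λ _ x _ hu
  have h1 : ‖x (dl 1)‖ = 1 := by
    rw [ContinuousLinearMap.norm_map_of_mem_unitary hu, norm_dl]
  have h2 := lp.hasSum_norm (p := 2) (by norm_num) (x (dl 1))
  rw [h1] at h2
  have h3 : (fun h => ‖cf x h‖ ^ 2) = fun h : Λ => ‖(x (dl 1)) h‖ ^ (2 : ENNReal).toReal := by
    funext h
    rw [cf_eq, ENNReal.toReal_ofNat, Real.rpow_ofNat]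
  rw [h3]
  convert h2 using 1
  rw [Real.one_rpow]

lemma rgt_mul {Λ : Type} [Group Λ] (a b : Λ) : rgt a * rgt b = rgt (b * a) := op_ext fun s => by
  rw [mul_ap, rgt_dl, rgt_dl, rgt_dl, mul_assoc]

lemma rgt_one {Λ : Type} [Group Λ] : rgt (1 : Λ) = 1 := op_ext fun s => by
  rw [rgt_dl, mul_one]; rfl

lemma rgt_unitary {Λ : Type} [Group Λ] (a : Λ) : rgt a ∈ unitary (Op Λ) := by
  rw [Unitary.mem_iff, star_rgt, rgt_mul, rgt_mul, mul_inv_cancel, inv_mul_cancel]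
  exact ⟨rgt_one, rgt_one⟩

theorem t_pi : S_PI := by
  intro G Λ _ _ v f hv
  refine ⟨{ toFun := fun g => ⟨(v g : Op Λ) * rgt (f g)⁻¹, mul_mem (v g).2 (rgt_unitary _)⟩
            map_one' := ?_
            map_mul' := ?_ }, fun g => ⟨rfl, ?_⟩⟩
  · apply Subtype.ext
    show ((v 1 : unitary (Op Λ)) : Op Λ) * rgt (f 1)⁻¹ = 1
    rw [map_one, map_one, inv_one, rgt_one, mul_one]
    rfl
  · intro g k
    apply Subtype.ext
    show ((v (g * k) : unitary (Op Λ)) : Op Λ) * rgt (f (g * k))⁻¹ =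
      ((v g : Op Λ) * rgt (f g)⁻¹) * ((v k : Op Λ) * rgt (f k)⁻¹)
    have h1 : rgt (f g)⁻¹ * (v k : Op Λ) = (v k : Op Λ) * rgt (f g)⁻¹ := mem_LG.1 (hv k) _
    rw [mul_assoc (v g : Op Λ), ← mul_assoc (rgt (f g)⁻¹), h1, mul_assoc (v k : Op Λ), rgt_mul,
      ← mul_assoc, map_mul, map_mul, mul_inv_rev]
    rfl
  · show inner ℂ (dl 1) (((v g : Op Λ) * rgt (f g)⁻¹) (dl 1)) = cf (v g : Op Λ) (f g)
    rw [mul_ap, rgt_dl, one_mul, mem_LG_iff.1 (hv g), inv_inv, one_mul]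

theorem main : S_SQ ∧ S_PI := ⟨t_sq, t_pi⟩

end

end Pool.Agent.N414.LR.SQ
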