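import Pool.Agent.N414.LR.Stm
import Pool.Agent.N557.QW.DS
import Pool.Agent.N2.QWP.Amp

/-!
# LR/TEN (subtask 9286): tensor products of operators
-/

set_option autoImplicit false

namespace Pool.Agent.N414.LR.TEN

open Pool.Agent.H494R3.GT Pool.Agent.N557.QW
open Pool.Agent.N2.QWP (VC VC_dl VC_inner adj_VC VC_adj DD DD_one DD_mul DD_star DD_coef)
open Pool.Agent.N169.QWP (mul_coeff)

noncomputable section

section transport

variable {S R : Type} (e : S ≃ R)

/-- transport of operators -/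
def Ad (x : Op S) : Op R :=
  (VC e.injective).comp (x.comp (ContinuousLinearMap.adjoint (VC e.injective)))

lemma Ad_apply (x : Op S) (v : L2 R) :
    Ad e x v = VC e.injective (x (ContinuousLinearMap.adjoint (VC e.injective) v)) := rfl

lemma Ad_one : Ad e (1 : Op S) = 1 := by
  have h := VC_adj e.injective e.surjective
  ext1 v
  rw [Ad_apply, ← h]
  rfl

lemma Ad_mul (x y : Op S) : Ad e (x * y) = Ad e x * Ad e y := by
  ext1 v
  rw [mul_ap, Ad_apply, Ad_apply, Ad_apply, adj_VC, mul_ap]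

lemma Ad_star (x : Op S) : Ad e (star x) = star (Ad e x) := by
  rw [ContinuousLinearMap.star_eq_adjoint, ContinuousLinearMap.star_eq_adjoint,
    ContinuousLinearMap.eq_adjoint_iff]
  intro v w
  rw [Ad_apply, Ad_apply, ← ContinuousLinearMap.adjoint_inner_right,
    ContinuousLinearMap.adjoint_inner_left, ContinuousLinearMap.adjoint_inner_left]

lemma Ad_coeff (x : Op S) (s s' : S) : (Ad e x (dl (e s))) (e s') = (x (dl s)) s' := by
  rw [← inner_dl, ← inner_dl, Ad_apply, ← VC_dl e.injective s, adj_VC,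
    ← VC_dl e.injective s', VC_inner]

end transport

variable {P Q : Type}

/-- first factor -/
def e1 : (Σ _ : Q, P) ≃ P × Q where
  toFun x := (x.2, x.1)
  invFun x := ⟨x.2, x.1⟩
  left_inv _ := rfl
  right_inv _ := rfl

/-- second factor -/
def e2 : (Σ _ : P, Q) ≃ P × Q where
  toFun x := (x.1, x.2)
  invFun x := ⟨x.1, x.2⟩
  left_inv _ := rfl
  right_inv _ := rfl

/-- `x ⊗ 1` -/
def A (Q : Type) (x : Op P) : Op (P × Q) := Ad e1 (DD (Q := Q) x)

/-- `1 ⊗ y` -/
def B (P : Type) (y : Op Q) : Op (P × Q) := Ad e2 (DD (Q := P) y)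

lemma A_coeff (x : Op P) (p p' : P) (q q' : Q) [Decidable (q = q')] :
    (A Q x (dl (p, q))) (p', q') = if q = q' then (x (dl p)) p' else 0 := by
  have h := Ad_coeff (e1 (P := P) (Q := Q)) (DD (Q := Q) x) ⟨q, p⟩ ⟨q', p'⟩
  have h2 := DD_coef x q q' p p'
  rw [inner_dl, inner_dl] at h2
  exact h.trans h2

lemma B_coeff (y : Op Q) (p p' : P) (q q' : Q) [Decidable (p = p')] :
    (B P y (dl (p, q))) (p', q') = if p = p' then (y (dl q)) q' else 0 := by
  have h := Ad_coeff (e2 (P := P) (Q := Q)) (DD (Q := P) y) ⟨p, q⟩ ⟨p', q'⟩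
  have h2 := DD_coef y p p' q q'
  rw [inner_dl, inner_dl] at h2
  exact h.trans h2

lemma AB_coeff (x : Op P) (y : Op Q) (p p' : P) (q q' : Q) :
    (A Q x (B P y (dl (p, q)))) (p', q') = (x (dl p)) p' * (y (dl q)) q' := by
  classical
  rw [mul_coeff, tsum_eq_single (p, q')]
  · rw [A_coeff, B_coeff, if_pos rfl, if_pos rfl]
  · rintro ⟨p'', q''⟩ hne
    rw [A_coeff, B_coeff]
    by_cases h1 : q'' = q'
    · by_cases h2 : p = p''
      · exact absurd (by rw [h1, h2]) hne
      · rw [if_neg h2, mul_zero]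
    · rw [if_neg h1, zero_mul]

lemma BA_coeff (x : Op P) (y : Op Q) (p p' : P) (q q' : Q) :
    (B P y (A Q x (dl (p, q)))) (p', q') = (x (dl p)) p' * (y (dl q)) q' := by
  classical
  rw [mul_coeff, tsum_eq_single (p', q)]
  · rw [A_coeff, B_coeff, if_pos rfl, if_pos rfl, mul_comm]
  · rintro ⟨p'', q''⟩ hne
    rw [A_coeff, B_coeff]
    by_cases h1 : q = q''
    · by_cases h2 : p'' = p'
      · exact absurd (by rw [h1, h2]) hne
      · rw [if_neg h2, zero_mul]
    · rw [if_neg h1, mul_zero]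

lemma comm (x : Op P) (y : Op Q) : A Q x * B P y = B P y * A Q x := by
  apply op_ext
  rintro ⟨p, q⟩
  apply vec_ext
  rintro ⟨p', q'⟩
  rw [mul_ap, mul_ap, AB_coeff, BA_coeff]

lemma A_one : A Q (1 : Op P) = 1 := by rw [A, DD_one, Ad_one]
lemma B_one : B P (1 : Op Q) = 1 := by rw [B, DD_one, Ad_one]
lemma A_mul (x x' : Op P) : A Q (x * x') = A Q x * A Q x' := by rw [A, DD_mul, Ad_mul]; rfl
lemma B_mul (y y' : Op Q) : B P (y * y') = B P y * B P y' := by rw [B, DD_mul, Ad_mul]; rfl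
lemma A_star (x : Op P) : A Q (star x) = star (A Q x) := by rw [A, DD_star, Ad_star]; rfl
lemma B_star (y : Op Q) : B P (star y) = star (B P y) := by rw [B, DD_star, Ad_star]; rfl

theorem main : Pool.Agent.N414.LR.S_TEN := by
  intro P Q
  refine ⟨fun x y => A Q x * B P y, ?_, ?_, ?_, ?_⟩
  · show A Q (1 : Op P) * B P (1 : Op Q) = 1
    rw [A_one, B_one, mul_one]
  · intro x x' y y'
    show A Q (x * x') * B P (y * y') = A Q x * B P y * (A Q x' * B P y')
    rw [A_mul, B_mul, mul_assoc, mul_assoc, ← mul_assoc (A Q x') (B P y), comm x' y, mul_assoc]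
  · intro x y
    show star (A Q x * B P y) = A Q (star x) * B P (star y)
    rw [star_mul, ← A_star, ← B_star, comm]
  · intro x y p q p' q'
    show inner ℂ (dl (p', q')) ((A Q x * B P y) (dl (p, q))) =
      inner ℂ (dl p') (x (dl p)) * inner ℂ (dl q') (y (dl q))
    rw [inner_dl, inner_dl, inner_dl, mul_ap, AB_coeff]

end

end Pool.Agent.N414.LR.TEN
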