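import Pool.Agent.N414.LR.Asm
import Pool.Agent.N490.LR.KZ
import Pool.Agent.N414.LR.CIR
import Pool.Agent.N414.LR.TEN
import Pool.Agent.N414.LR.BAR
import Pool.Agent.N414.LR.RE0
import Pool.Agent.N426.LR.RE1
import Pool.Agent.N255.LR.NUM
import Pool.Agent.N414.LR.SQ
import Pool.Agent.N414.LR.HOM
import Pool.Agent.N2.LR.HS
import Pool.Agent.N73.LR.FIX
import Pool.Agent.N414.LR.CLS
import Pool.Agent.N670.LR.UNI
import Pool.Agent.N499.LR.WWW
import Pool.Agent.N414.LR.END

/-!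
# Project LR: the local rigidity theorem, all leaves plugged in
-/

set_option autoImplicit false

namespace Pool.Agent.N414.LR.Final

open Pool.Agent.N414.LR

theorem main : S_MAIN :=
  Pool.Agent.N414.LR.Asm.main
    Pool.Agent.N490.LR.KZ.main
    Pool.Agent.N414.LR.CIR.main
    (Pool.Agent.N414.LR.RE0.main Pool.Agent.N414.LR.TEN.main Pool.Agent.N414.LR.BAR.main)
    (Pool.Agent.N414.LR.RE1.main Pool.Agent.N414.LR.TEN.main Pool.Agent.N414.LR.BAR.main)
    Pool.Agent.N255.LR.NUM.main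
    Pool.Agent.N414.LR.SQ.t_sq
    Pool.Agent.N414.LR.HOM.main
    Pool.Agent.N414.LR.SQ.t_pi
    Pool.Agent.N2.LR.HS.main
    Pool.Agent.N73.LR.FIX.main
    Pool.Agent.N414.LR.CLS.main
    Pool.Agent.N414.LR.UNI.main
    Pool.Agent.N499.LR.WWW.main
    Pool.Agent.N414.LR.END.t_end
    Pool.Agent.N414.LR.END.t_den

end Pool.Agent.N414.LR.Final
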