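import Pool.Agent.N557.QW.Base
import Pool.Agent.N169.QWP.COM
import Pool.Agent.W661.RC.Stm2

/-!
# Project LR (local rigidity of group von Neumann algebras of Kazhdan groups): statements

`Λ` is a group, `LG Λ` its von Neumann algebra (commutant of the right translations), `cf x h` the
Fourier coefficient of `x` at `h`, `lam`, `rgt` the translations, `dl` the canonical basis.
-/

set_option autoImplicit false

namespace Pool.Agent.N414.LR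

open Pool.Agent.H494R3.GT Pool.Agent.N557.QW
open Pool.Agent.W661.RC (HasT)

noncomputable section

/-- Bounded operators on `ℓ²(P)`. -/
abbrev Op (P : Type) := L2 P →L[ℂ] L2 P

/-- KZ: quantitative form of property (T): a unit vector which is almost invariant under the
finite set `S` is almost invariant under the whole group. -/
def S_KZ : Prop :=
  ∀ (G : Type) [Group G], HasT G → ∃ S : Finset G, ∀ ε : ℝ, 0 < ε → ∃ δ : ℝ, 0 < δ ∧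
    ∀ (H : Type) [NormedAddCommGroup H] [InnerProductSpace ℂ H] [CompleteSpace H]
      (π : G →* unitary (H →L[ℂ] H)) (ξ : H), ‖ξ‖ = 1 →
      (∀ s ∈ S, ‖(π s : H →L[ℂ] H) ξ - ξ‖ ≤ δ) → ∀ g, ‖(π g : H →L[ℂ] H) ξ - ξ‖ ≤ ε

/-- CIR: a uniformly almost invariant vector is close to an invariant vector. -/
def S_CIR : Prop :=
  ∀ (G : Type) [Group G] (H : Type) [NormedAddCommGroup H] [InnerProductSpace ℂ H]
    [CompleteSpace H] (π : G →* unitary (H →L[ℂ] H)) (ξ : H) (ε : ℝ),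
    (∀ g, ‖(π g : H →L[ℂ] H) ξ - ξ‖ ≤ ε) →
    ∃ ζ : H, ‖ζ - ξ‖ ≤ ε ∧ ∀ g, (π g : H →L[ℂ] H) ζ = ζ

/-- TEN: tensor products of operators. -/
def S_TEN : Prop :=
  ∀ P Q : Type, ∃ T : Op P → Op Q → Op (P × Q), T 1 1 = 1 ∧
    (∀ x x' y y', T (x * x') (y * y') = T x y * T x' y') ∧
    (∀ x y, star (T x y) = T (star x) (star y)) ∧
    ∀ x y p q p' q', inner ℂ (dl (p', q')) (T x y (dl (p, q))) =
      inner ℂ (dl p') (x (dl p)) * inner ℂ (dl q') (y (dl q))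

/-- BAR: the complex conjugate of an operator. -/
def S_BAR : Prop :=
  ∀ P : Type, ∃ C : Op P → Op P, C 1 = 1 ∧ (∀ x y, C (x * y) = C x * C y) ∧
    (∀ x, C (star x) = star (C x)) ∧
    ∀ x p q, inner ℂ (dl q) (C x (dl p)) = (starRingEnd ℂ) (inner ℂ (dl q) (x (dl p)))

/-- RE0: the representation with the coefficient `g ↦ ∑ a_h |a_h|²`, `a_h` the Fourier
coefficients of `v g`. -/
def S_RE0 : Prop :=
  ∀ (G Λ : Type) [Group G] [Group Λ] (v : G →* unitary (Op Λ)),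
    (∀ g, (v g : Op Λ) ∈ LG Λ) →
    ∃ ρ : G →* unitary (Op (Λ × Λ)), ∀ g,
      inner ℂ (dl ((1 : Λ), (1 : Λ))) ((ρ g : Op (Λ × Λ)) (dl (1, 1))) =
        ∑' h, cf (v g : Op Λ) h * ((‖cf (v g : Op Λ) h‖ ^ 2 : ℝ) : ℂ)

/-- RE1: the representation `ρ ⊗ conj ρ`. -/
def S_RE1 : Prop :=
  ∀ (G P : Type) [Group G] (ρ : G →* unitary (Op P)) (p₀ : P),
    ∃ σ : G →* unitary (Op (P × P)),
      (∀ g, inner ℂ (dl (p₀, p₀)) ((σ g : Op (P × P)) (dl (p₀, p₀))) =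
        ((‖inner ℂ (dl p₀) ((ρ g : Op P) (dl p₀))‖ ^ 2 : ℝ) : ℂ)) ∧
      ∀ (k : L2 (P × P)) (K : Op P), (∀ p q, inner ℂ (dl p) (K (dl q)) = k (p, q)) →
        ∀ g, (σ g : Op (P × P)) k = k → (ρ g : Op P) * K = K * (ρ g : Op P)

/-- NUM: elementary inequalities for unit vectors. -/
def S_NUM : Prop :=
  ∀ (Λ : Type) (a : Λ → ℂ), HasSum (fun h => ‖a h‖ ^ 2) 1 →
    (∀ (h₀ : Λ) (δ : ℝ), 0 ≤ δ → δ ≤ 1 → 1 - δ ≤ ‖a h₀‖ →
      1 - 20 * δ ≤ ‖∑' h, a h * ((‖a h‖ ^ 2 : ℝ) : ℂ)‖ ^ 2) ∧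
    ∀ η : ℝ, 0 ≤ η → η < 1 → 1 - η ≤ ‖∑' h, a h * ((‖a h‖ ^ 2 : ℝ) : ℂ)‖ ^ 2 →
      ∃ h₀, 1 - η ≤ ‖a h₀‖

/-- SQ: the coefficients of a unitary element of `L(Λ)`. -/
def S_SQ : Prop :=
  ∀ (Λ : Type) [Group Λ] (x : Op Λ), x ∈ LG Λ → x ∈ unitary (Op Λ) →
    HasSum (fun h => ‖cf x h‖ ^ 2) 1

/-- HOM: if every `v g` has a Fourier coefficient of modulus at least `1 - η`, its place is a
homomorphism. -/
def S_HOM : Prop :=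
  ∀ (G Λ : Type) [Group G] [Group Λ] (v : G →* unitary (Op Λ)) (η : ℝ),
    (∀ g, (v g : Op Λ) ∈ LG Λ) → 0 ≤ η → η ≤ 1 / 100 →
    (∀ g, ∃ h, 1 - η ≤ ‖cf (v g : Op Λ) h‖) →
    ∃ f : G →* Λ, ∀ g, 1 - η ≤ ‖cf (v g : Op Λ) (f g)‖

/-- PI: the representation `v g · rgt (f g)⁻¹`. -/
def S_PI : Prop :=
  ∀ (G Λ : Type) [Group G] [Group Λ] (v : G →* unitary (Op Λ)) (f : G →* Λ),
    (∀ g, (v g : Op Λ) ∈ LG Λ) →
    ∃ π : G →* unitary (Op Λ), ∀ g, (π g : Op Λ) = (v g : Op Λ) * rgt (f g)⁻¹ ∧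
      inner ℂ (dl 1) ((π g : Op Λ) (dl 1)) = cf (v g : Op Λ) (f g)

/-- HS: the operator of a square summable kernel. -/
def S_HS : Prop :=
  ∀ (P : Type) (k : L2 (P × P)), ∃ K : Op P, ‖K‖ ≤ ‖k‖ ∧
    ∀ p q, inner ℂ (dl p) (K (dl q)) = k (p, q)

/-- FIX: an operator close to the projection onto `e` has an eigenvector close to `e`; it is an
eigenvector of every group which commutes with the operator and almost fixes the line of `e`. -/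
def S_FIX : Prop :=
  ∀ (G : Type) [Group G] (H : Type) [NormedAddCommGroup H] [InnerProductSpace ℂ H]
    [CompleteSpace H] (π : G →* unitary (H →L[ℂ] H)) (e : H) (K : H →L[ℂ] H) (η : ℝ),
    ‖e‖ = 1 → 0 ≤ η → η ≤ 1 / 100 →
    (∀ x, ‖K x - inner ℂ e x • e‖ ≤ η * ‖x‖) →
    (∀ g, (π g : H →L[ℂ] H) * K = K * (π g : H →L[ℂ] H)) →
    (∀ g, 1 - η ≤ ‖inner ℂ e ((π g : H →L[ℂ] H) e)‖) →
    ∃ (χ : G →* unitary ℂ) (ζ : H), ‖ζ‖ = 1 ∧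
      ∀ g, (π g : H →L[ℂ] H) ζ = ((χ g : unitary ℂ) : ℂ) • ζ

/-- All nontrivial conjugacy classes are infinite. -/
def IsIcc (G : Type) [Group G] : Prop :=
  ∀ g : G, g ≠ 1 → {x : G | ∃ k : G, k * g * k⁻¹ = x}.Infinite

/-- CLS: the function `g ↦ ⟨ζ, v_g ζ⟩` is a class function which tends to zero. -/
def S_CLS : Prop :=
  ∀ (G Λ : Type) [Group G] [Group Λ] (v : G →* unitary (Op Λ)) (f : G →* Λ)
    (χ : G →* unitary ℂ) (ζ : L2 Λ), IsIcc G → (∀ g, (v g : Op Λ) ∈ LG Λ) →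
    (∀ g, g ≠ 1 → cf (v g : Op Λ) 1 = 0) →
    (∀ g, (v g : Op Λ) ζ = ((χ g : unitary ℂ) : ℂ) • rgt (f g) ζ) →
    ∀ g, g ≠ 1 → inner ℂ ζ ((v g : Op Λ) ζ) = 0

/-- UNI: if the vectors `v_g δ_1` form an orthonormal basis and the vectors `v_g ζ` are orthonormal,
then the vectors `λ_h ζ` are orthonormal. -/
def S_UNI : Prop :=
  ∀ (G Λ : Type) [Group G] [Group Λ] (v : G →* unitary (Op Λ)) (ζ : L2 Λ), ‖ζ‖ = 1 →
    (∀ g, (v g : Op Λ) ∈ LG Λ) → (∀ g, g ≠ 1 → cf (v g : Op Λ) 1 = 0) →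
    (Submodule.span ℂ (Set.range fun g => (v g : Op Λ) (dl 1))).topologicalClosure = ⊤ →
    (∀ g, g ≠ 1 → inner ℂ ζ ((v g : Op Λ) ζ) = 0) →
    ∀ h : Λ, h ≠ 1 → inner ℂ ζ (lam h ζ) = 0

/-- WWW: a unit vector `ζ` with `⟨ζ, λ_h ζ⟩ = 0` for `h ≠ 1` is `w δ_1` for a unitary `w ∈ L(Λ)`. -/
def S_WWW : Prop :=
  ∀ (Λ : Type) [Group Λ] (ζ : L2 Λ), ‖ζ‖ = 1 → (∀ h : Λ, h ≠ 1 → inner ℂ ζ (lam h ζ) = 0) →
    ∃ w : Op Λ, w ∈ LG Λ ∧ w ∈ unitary (Op Λ) ∧ w (dl 1) = ζ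

/-- END: the last step. -/
def S_END : Prop :=
  ∀ (G Λ : Type) [Group G] [Group Λ] (v : G →* unitary (Op Λ)) (f : G →* Λ)
    (χ : G →* unitary ℂ) (w : Op Λ), (∀ g, (v g : Op Λ) ∈ LG Λ) →
    (∀ g, g ≠ 1 → cf (v g : Op Λ) 1 = 0) →
    (Submodule.span ℂ (Set.range fun g => (v g : Op Λ) (dl 1))).topologicalClosure = ⊤ →
    w ∈ LG Λ → w ∈ unitary (Op Λ) →
    (∀ g, (v g : Op Λ) (w (dl 1)) = ((χ g : unitary ℂ) : ℂ) • rgt (f g) (w (dl 1))) →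
    Function.Bijective f ∧
      ∀ g, (v g : Op Λ) = ((χ g : unitary ℂ) : ℂ) • (w * lam (f g) * star w)

/-- DEN: the unitaries of an isomorphism `θ : L(Γ) → L(Λ)` which preserves the trace. -/
def S_DEN : Prop :=
  ∀ (Γ Λ : Type) [Group Γ] [Group Λ]
    (θ : (LG Γ).toStarSubalgebra ≃⋆ₐ[ℂ] (LG Λ).toStarSubalgebra),
    (∀ x, cf (θ x : Op Λ) 1 = cf (x : Op Γ) 1) →
    ∃ v : Γ →* unitary (Op Λ),
      (∀ g, (v g : Op Λ) = (θ ⟨lam g, lam_mem g⟩ : Op Λ)) ∧ (∀ g, (v g : Op Λ) ∈ LG Λ) ∧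
      (∀ g, g ≠ 1 → cf (v g : Op Λ) 1 = 0) ∧
      (Submodule.span ℂ (Set.range fun g => (v g : Op Λ) (dl 1))).topologicalClosure = ⊤

/-- The final theorem. -/
def S_MAIN : Prop :=
  ∀ (Γ : Type) [Group Γ], IsIcc Γ → HasT Γ → ∃ (S : Finset Γ) (δ : ℝ), 0 < δ ∧
    ∀ (Λ : Type) [Group Λ] (θ : (LG Γ).toStarSubalgebra ≃⋆ₐ[ℂ] (LG Λ).toStarSubalgebra),
      (∀ x, cf (θ x : Op Λ) 1 = cf (x : Op Γ) 1) →
      (∀ s ∈ S, ∃ h, 1 - δ ≤ ‖cf (θ ⟨lam s, lam_mem s⟩ : Op Λ) h‖) →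
      ∃ (φ : Γ ≃* Λ) (χ : Γ →* unitary ℂ) (w : Op Λ), w ∈ LG Λ ∧ w ∈ unitary (Op Λ) ∧
        ∀ g, (θ ⟨lam g, lam_mem g⟩ : Op Λ) =
          ((χ g : unitary ℂ) : ℂ) • (w * lam (φ g) * star w)

end

end Pool.Agent.N414.LR
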